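import Mathlib
import Pool.Agent.H32.Erase2

open Set

namespace Pool.Agent.Results.MP_7df46e_an.Comeagre

open Pool.Agent.H32.Er

/-- Q1: the set `E` of points with dense orbit is comeagre and of second category in `[0,1]`.
The first conjunct certifies that `beta x` is the expansion of `x` that is not eventually zero. -/
theorem result :
    (∀ x ∈ Ioc (0 : ℝ) 1, InfOnes (beta x) ∧ val (beta x) = x) ∧
    IsMeagre {x : Icc (0 : ℝ) 1 | x.1 ∉ E} ∧ ¬ IsMeagre {x : Icc (0 : ℝ) 1 | x.1 ∈ E} := by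
  refine ⟨fun x hx => by rw [beta_eq hx]; exact ⟨inf_bx hx, val_bx hx⟩, comeagre, fun h => ?_⟩
  have : Nonempty (Icc (0 : ℝ) 1) := ⟨⟨0, by simp⟩⟩
  obtain ⟨x, h1, h2⟩ := (dense_of_mem_residual (Filter.inter_mem h comeagre)).nonempty
  exact h2 h1

end Pool.Agent.Results.MP_7df46e_an.Comeagre
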